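import Mathlib
import Pool.Agent.PDC.Basic

set_option autoImplicit false

/-!
# PDC-SH-LemE: Lemma E, version with `f` defined on the group ring of `H` only
-/

namespace Pool.Agent.PDC.SH

open MonoidAlgebra

private theorem lemE_one {K : Type} [Group K] {D : Type} [DivisionRing D]
    (f : MonoidAlgebra ℤ K →+* D) (hf : Function.Injective f) {h : K} (hh : f (of ℤ K h) = 1) :
    h = 1 := by
  have h1 : of ℤ K h = of ℤ K 1 := hf (by rw [hh, map_one, map_one])
  exact of_injective h1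

private theorem lemE_neg {K : Type} [Group K] {D : Type} [DivisionRing D]
    (f : MonoidAlgebra ℤ K →+* D) (hf : Function.Injective f) (h : K) : f (of ℤ K h) ≠ -1 := by
  intro hh
  have h1 : of ℤ K h = -1 := hf (by rw [hh, map_neg, map_one])
  have h2 := congrArg aug h1
  rw [aug_of, map_neg, map_one] at h2
  norm_num at h2

private theorem lemE_mul {K : Type} [Group K] {D : Type} [DivisionRing D]
    (f : MonoidAlgebra ℤ K →+* D) (h : K) : f (of ℤ K h⁻¹) * f (of ℤ K h) = 1 := by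
  rw [← map_mul, ← map_mul, inv_mul_cancel, map_one, map_one]

private theorem lemE_inj {K : Type} [Group K] {D : Type} [DivisionRing D]
    (f : MonoidAlgebra ℤ K →+* D) (hf : Function.Injective f) {a b : K}
    (hab : f (of ℤ K a⁻¹) = f (of ℤ K b⁻¹) ∨ f (of ℤ K a⁻¹) = -f (of ℤ K b⁻¹)) : a = b := by
  have e : f (of ℤ K (a⁻¹ * b)) = f (of ℤ K a⁻¹) * f (of ℤ K b) := by rw [map_mul, map_mul]
  rcases hab with h | h
  · rw [h, lemE_mul] at e
    have := lemE_one f hf e
    exact inv_mul_eq_one.1 this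
  · rw [h, neg_mul, lemE_mul] at e
    exact absurd e (lemE_neg f hf _)

private theorem lemE_sub {K : Type} [Group K] {D : Type} [DivisionRing D]
    (f : MonoidAlgebra ℤ K →+* D) (hf : Function.Injective f) (c : D) {d : D} (hd : d ≠ 0) :
    {h : K | c * f (of ℤ K h⁻¹) = d ∨ c * f (of ℤ K h⁻¹) = -d}.Finite := by
  apply Set.Subsingleton.finite
  have hc : ∀ a : K, (c * f (of ℤ K a⁻¹) = d ∨ c * f (of ℤ K a⁻¹) = -d) → c ≠ 0 := by
    rintro a ha rfl
    rw [zero_mul] at ha
    rcases ha with ha | ha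
    · exact hd ha.symm
    · exact hd (neg_eq_zero.1 ha.symm)
  intro a ha b hb
  have hc0 := hc a ha
  apply lemE_inj f hf
  rcases ha with ha | ha <;> rcases hb with hb | hb
  · left
    exact mul_left_cancel₀ hc0 (ha.trans hb.symm)
  · right
    apply mul_left_cancel₀ hc0
    rw [mul_neg, hb, neg_neg]
    exact ha
  · right
    apply mul_left_cancel₀ hc0
    rw [mul_neg, hb]
    exact ha
  · left
    exact mul_left_cancel₀ hc0 (ha.trans hb.symm)

private def lemE_V {G D : Type} [Neg D] (φ : G → D) (d : D) : Set G := {g | φ g = d ∨ φ g = -d}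

/-- an edge of the boundary of `V d` is bad, and one of its ends is `h z` -/
private theorem lemE_edge {G : Type} [Group G] 
    {D : Type} [DivisionRing D] (H : Subgroup G) (f : MonoidAlgebra ℤ H →+* D)
    (w : G → ℤ) (hw : ∀ g, w g = 1 ∨ w g = -1)
    (φ : G → D) (hφ : ∀ (h : H) (g : G), φ ((h : G) * g) = φ g * f (of ℤ H h⁻¹)) (s : G) (Y : Finset G)
    (hY : ∀ g ∈ {g : G | φ (g * s) ≠ w s • φ g}, ∃ y ∈ Y, g * y⁻¹ ∈ H) (d : D) (g : G)
    (hg : ¬ (g ∈ lemE_V φ d ↔ g * s ∈ lemE_V φ d)) :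
    ∃ y ∈ Y, ∃ h : H, g = (h : G) * y ∧ ((φ y * f (of ℤ H h⁻¹) = d ∨ φ y * f (of ℤ H h⁻¹) = -d) ∨
      (φ (y * s) * f (of ℤ H h⁻¹) = d ∨ φ (y * s) * f (of ℤ H h⁻¹) = -d)) := by
  have hbad : φ (g * s) ≠ w s • φ g := by
    intro heq
    apply hg
    unfold lemE_V
    simp only [Set.mem_ofPred_eq]
    rcases hw s with h | h
    · rw [heq, h, one_smul]
    · rw [heq, h, neg_smul, one_smul]
      constructor
      · rintro (h1 | h1)
        · right; rw [h1]
        · left; rw [h1, neg_neg]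
      · rintro (h1 | h1)
        · right; rw [← h1, neg_neg]
        · left; exact neg_injective h1
  obtain ⟨y, hy, hyH⟩ := hY g hbad
  refine ⟨y, hy, ⟨g * y⁻¹, hyH⟩, by simp, ?_⟩
  have e1 : φ g = φ y * f (of ℤ H (⟨g * y⁻¹, hyH⟩ : H)⁻¹) := by
    have := hφ ⟨g * y⁻¹, hyH⟩ y
    rwa [inv_mul_cancel_right] at this
  have e2 : φ (g * s) = φ (y * s) * f (of ℤ H (⟨g * y⁻¹, hyH⟩ : H)⁻¹) := by
    have := hφ ⟨g * y⁻¹, hyH⟩ (y * s)
    have e : g * y⁻¹ * (y * s) = g * s := by group
    rwa [e] at this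
  rw [← e1, ← e2]
  by_contra hno
  apply hg
  have h1 : ¬ (φ g = d ∨ φ g = -d) := fun h => hno (Or.inl h)
  have h2 : ¬ (φ (g * s) = d ∨ φ (g * s) = -d) := fun h => hno (Or.inr h)
  exact ⟨fun h => absurd h h1, fun h => absurd h h2⟩

theorem lemma_E {G : Type} [Group G] [Infinite G] (hE : OneEnded G) (S : Finset G)
    (hS : Subgroup.closure (S : Set G) = ⊤)
    {D : Type} [DivisionRing D] (H : Subgroup G) (f : MonoidAlgebra ℤ H →+* D)
    (hf : Function.Injective f) (hH : H ≠ ⊥) (w : G → ℤ) (hw : ∀ g, w g = 1 ∨ w g = -1)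
    (φ : G → D) (hφ : ∀ (h : H) (g : G), φ ((h : G) * g) = φ g * f (of ℤ H h⁻¹))
    (hb : ∀ s ∈ S, FinCos H {g : G | φ (g * s) ≠ w s • φ g}) :
    FinCos H {g : G | φ g ≠ 0} := by
  classical
  -- the finite sets `Y s`
  have hb' : ∀ s : G, ∃ Y : Finset G, s ∈ S →
      ∀ g ∈ {g : G | φ (g * s) ≠ w s • φ g}, ∃ y ∈ Y, g * y⁻¹ ∈ H := by
    intro s
    by_cases hs : s ∈ S
    · obtain ⟨Y, hY⟩ := hb s hs
      exact ⟨Y, fun _ => hY⟩
    · exact ⟨∅, fun h => absurd h hs⟩
  choose Y hY using hb'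
  -- step 1
  have step1 : ∀ d : D, d ≠ 0 → ∀ s ∈ S,
      {g : G | ¬ (g ∈ lemE_V φ d ↔ g * s ∈ lemE_V φ d)}.Finite := by
    intro d hd s hs
    have hfin : (⋃ y ∈ (Y s : Set G),
        ((fun h : H => (h : G) * y) '' {h : H | φ y * f (of ℤ H h⁻¹) = d ∨
          φ y * f (of ℤ H h⁻¹) = -d}) ∪
        ((fun h : H => (h : G) * y) '' {h : H | φ (y * s) * f (of ℤ H h⁻¹) = d ∨
          φ (y * s) * f (of ℤ H h⁻¹) = -d})).Finite := by
      refine Set.Finite.biUnion (Y s).finite_toSet fun y _ => ?_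
      exact ((lemE_sub f hf _ hd).image _).union ((lemE_sub f hf _ hd).image _)
    refine hfin.subset ?_
    intro g hg
    obtain ⟨y, hy, h, hgy, hcase⟩ := lemE_edge H f w hw φ hφ s (Y s) (hY s hs) d g hg
    refine Set.mem_biUnion hy ?_
    rcases hcase with hc | hc
    · exact Or.inl ⟨h, hc, hgy.symm⟩
    · exact Or.inr ⟨h, hc, hgy.symm⟩
  -- step 2
  obtain ⟨h0, hne'⟩ := (Subgroup.ne_bot_iff_exists_ne_one).1 hH
  have step2 : ∀ d : D, d ≠ 0 → (lemE_V φ d).Finite := by
    intro d hd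
    rcases hE S hS (lemE_V φ d) (step1 d hd) with h | h
    · exact h
    · have hsub : (fun g => (h0 : G) * g) '' lemE_V φ d ⊆ (lemE_V φ d)ᶜ := by
        rintro _ ⟨g, hg, rfl⟩ hg'
        have e := hφ h0 g
        change φ ((h0 : G) * g) = d ∨ φ ((h0 : G) * g) = -d at hg'
        rw [e] at hg'
        apply hne'
        rcases hg with hg | hg <;> rcases hg' with hg' | hg' <;> rw [hg] at hg'
        · have h2 := lemE_one f hf (mul_left_cancel₀ hd (hg'.trans (mul_one d).symm))
          exact inv_eq_one.1 h2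
        · exact absurd (mul_left_cancel₀ hd (hg'.trans (mul_neg_one d).symm)) (lemE_neg f hf _)
        · have h3 : d * f (of ℤ H h0⁻¹) = d * (-1) := by
            rw [neg_mul] at hg'
            rw [mul_neg_one]
            exact neg_injective (by rw [hg', neg_neg])
          exact absurd (mul_left_cancel₀ hd h3) (lemE_neg f hf _)
        · have h3 : d * f (of ℤ H h0⁻¹) = d * 1 := by
            rw [neg_mul] at hg'
            rw [mul_one]
            exact neg_injective hg'
          have h2 := lemE_one f hf (mul_left_cancel₀ hd h3)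
          exact inv_eq_one.1 h2
      exact Set.Finite.of_finite_image (h.subset hsub) (mul_right_injective (h0 : G)).injOn
  -- step 3
  have step3 : ∀ g0 : G, φ g0 ≠ 0 → ∃ s ∈ S, ∃ g, 
      ¬ (g ∈ lemE_V φ (φ g0) ↔ g * s ∈ lemE_V φ (φ g0)) := by
    intro g0 h0
    by_contra hno
    push Not at hno
    have hall : ∀ k : G, ∀ g, g ∈ lemE_V φ (φ g0) ↔ g * k ∈ lemE_V φ (φ g0) := by
      intro k
      have hk : k ∈ Subgroup.closure (S : Set G) := by rw [hS]; trivial
      induction hk using Subgroup.closure_induction with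
      | mem x hx => exact fun g => hno x hx g
      | one => intro g; rw [mul_one]
      | mul x y _ _ hx hy => intro g; rw [hx g, hy (g * x), mul_assoc]
      | inv x _ hx =>
        intro g
        have := hx (g * x⁻¹)
        rw [inv_mul_cancel_right] at this
        exact this.symm
    have huniv : lemE_V φ (φ g0) = Set.univ := by
      rw [Set.eq_univ_iff_forall]
      intro k
      have h1 := (hall (g0⁻¹ * k) g0).1 (Or.inl rfl)
      rwa [mul_inv_cancel_left] at h1
    have hfin := step2 (φ g0) h0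
    rw [huniv] at hfin
    exact Set.infinite_univ hfin
  -- step 4
  have hfin : (⋃ s ∈ (S : Set G), ⋃ y ∈ (Y s : Set G),
      {g : G | φ y ≠ 0 ∧ g ∈ lemE_V φ (φ y)} ∪
      {g : G | φ (y * s) ≠ 0 ∧ g ∈ lemE_V φ (φ (y * s))}).Finite := by
    refine Set.Finite.biUnion S.finite_toSet fun s _ => ?_
    refine Set.Finite.biUnion (Y s).finite_toSet fun y _ => ?_
    refine Set.Finite.union ?_ ?_
    · by_cases hz : φ y = 0
      · simp [hz]
      · exact (step2 _ hz).subset fun g hg => hg.2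
    · by_cases hz : φ (y * s) = 0
      · simp [hz]
      · exact (step2 _ hz).subset fun g hg => hg.2
  refine ⟨hfin.toFinset, fun g0 hg0 => ?_⟩
  obtain ⟨s, hs, g, hg⟩ := step3 g0 hg0
  obtain ⟨y, hy, h, -, hcase⟩ := lemE_edge H f w hw φ hφ s (Y s) (hY s hs) (φ g0) g hg
  have e3 : φ ((h : G)⁻¹ * g0) = φ g0 * f (of ℤ H h) := by
    have := hφ h⁻¹ g0
    rwa [inv_inv, Subgroup.coe_inv] at this
  have key : ∀ c : D, (c * f (of ℤ H h⁻¹) = φ g0 ∨ c * f (of ℤ H h⁻¹) = -φ g0) →
      c ≠ 0 ∧ (h : G)⁻¹ * g0 ∈ lemE_V φ c := by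
    intro c hc
    constructor
    · rintro rfl
      rw [zero_mul] at hc
      rcases hc with hc | hc
      · exact hg0 hc.symm
      · exact hg0 (neg_eq_zero.1 hc.symm)
    · change φ ((h : G)⁻¹ * g0) = c ∨ φ ((h : G)⁻¹ * g0) = -c
      rw [e3]
      rcases hc with hc | hc
      · left
        rw [← hc, mul_assoc, lemE_mul, mul_one]
      · right
        have : φ g0 = -(c * f (of ℤ H h⁻¹)) := by rw [hc, neg_neg]
        rw [this, neg_mul, mul_assoc, lemE_mul, mul_one]
  refine ⟨(h : G)⁻¹ * g0, ?_, ?_⟩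
  · rw [Set.Finite.mem_toFinset]
    refine Set.mem_biUnion (show s ∈ (S : Set G) from hs) ?_
    refine Set.mem_biUnion (show y ∈ (Y s : Set G) from hy) ?_
    rcases hcase with hc | hc
    · exact Or.inl (key _ hc)
    · exact Or.inr (key _ hc)
  · have : g0 * ((h : G)⁻¹ * g0)⁻¹ = h := by group
    rw [this]
    exact h.2

end Pool.Agent.PDC.SH
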