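import Mathlib
import Pool.Agent.PDC.Rho
import Pool.Agent.PDC.Comp
import Pool.Agent.PDC.LinA
import Pool.Agent.PDC.FinG
import Pool.Agent.PDC.SH.Heart

set_option autoImplicit false

/-!
# PDC-SH-ThmA: Theorem A (almost coherence), only the group ring of `H` has to embed in a division
ring
-/

namespace Pool.Agent.PDC.SH

open MonoidAlgebra

private theorem fg_bot {G : Type} [Group G] (H : Subgroup G) (hb : H = ⊥) {n : ℕ} (x : Fin n → H) :
    (LinearMap.ker (bd x)).FG := by
  have hs : Function.Surjective (Int.castRingHom (MonoidAlgebra ℤ H)) := by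
    intro r
    induction r using zg_induction with
    | h0 => exact ⟨0, by simp⟩
    | hadd x y hx hy =>
      obtain ⟨a, ha⟩ := hx
      obtain ⟨b, hb⟩ := hy
      exact ⟨a + b, by rw [map_add, ha, hb]⟩
    | hneg x hx =>
      obtain ⟨a, ha⟩ := hx
      exact ⟨-a, by rw [map_neg, ha]⟩
    | hof g =>
      refine ⟨1, ?_⟩
      have hg : g = 1 := by
        apply Subtype.ext
        have h1 : ∀ g : G, g ∈ H → g = 1 := by
          intro g hg
          rw [hb] at hg
          exact Subgroup.mem_bot.1 hg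
        exact h1 _ g.2
      rw [hg, map_one, map_one]
  have : IsNoetherianRing (MonoidAlgebra ℤ H) := isNoetherianRing_of_surjective ℤ _ _ hs
  exact IsNoetherian.noetherian _

private theorem finite_tr {G : Type} [Group G] (H : Subgroup G) (hi : H.index ≠ 0) :
    (Set.range (tr H)).Finite := by
  have : H.FiniteIndex := ⟨hi⟩
  have : Finite (G ⧸ H) := Subgroup.finite_quotient_of_finiteIndex
  have : Finite (Quotient (QuotientGroup.rightRel H)) :=
    Finite.of_equiv _ (QuotientGroup.quotientRightRelEquivQuotientLeftRel H).symm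
  refine (Set.finite_range
    (fun c : Quotient (QuotientGroup.rightRel H) => (Quotient.out c : G))).subset ?_
  rintro _ ⟨g, rfl⟩
  exact ⟨Quotient.mk _ g, rfl⟩

private theorem sum_coe {D : Type} [DivisionRing D] {I : Type} (c : I →₀ D) (F : I → D) :
    c.sum (fun i d => d * F i) = ∑ a : {i // i ∈ c.support}, c a.1 * F a.1 := by
  rw [Finsupp.sum, ← Finset.sum_coe_sort]

/-- A subgroup of finite index of a `PD₃`-group has finitely generated relation modules. -/
theorem relFG_index {G : Type} [Group G] (X : PD3 G) (H : Subgroup G) (hind : H.index ≠ 0) :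
    RelFG H := by
  classical
  intro n x hx
  obtain ⟨y, g1, σ, hg1, hg1', hσ, hcomp⟩ := comparison X H x hx
  obtain ⟨m, e, μ, hμ⟩ := dual_basis (MonoidAlgebra ℤ G) X.P2
  refine fin_gen X H x y g1 σ hg1 hg1' hσ (fun p hp => (hcomp p hp).2) e μ hμ
    (finite_tr H hind).toFinset ?_ ?_
  · intro t ht
    rw [Set.Finite.mem_toFinset] at ht
    obtain ⟨g, rfl⟩ := ht
    exact tr_tr H g
  · intro p hp
    obtain ⟨q, hq⟩ := (X.ex1 _).1 (hcomp p hp).1
    refine ⟨q, hq, ?_⟩
    intro k g _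
    rw [Set.Finite.mem_toFinset]
    exact ⟨g, rfl⟩

/-- Theorem A: a finitely generated subgroup `H` of a `PD₃`-group such that `ℤ[H]` embeds in a
division ring has finitely generated relation modules. -/
theorem thmA {G : Type} [Group G] (X : PD3 G) {D : Type} [DivisionRing D] (H : Subgroup G)
    (f : MonoidAlgebra ℤ H →+* D) (hf : Function.Injective f) : RelFG H := by
  classical
  by_cases hind : H.index = 0
  swap
  · exact relFG_index X H hind
  intro n x hx
  by_cases hbot : H = ⊥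
  · exact fg_bot H hbot x
  obtain ⟨y, g1, σ, hg1, hg1', hσ, hcomp⟩ := comparison X H x hx
  obtain ⟨m, e, μ, hμ⟩ := dual_basis (MonoidAlgebra ℤ G) X.P2
  obtain ⟨ρ, hρ1, hρ2⟩ := rho_exists X H hind
  obtain ⟨w, hw, hwm, hwθ⟩ := sign_exists X
  obtain ⟨l0, hl0⟩ := X.θsurj 1
  have hμ' : ∀ j, ∃ ν : X.P2 →ₗ[MonoidAlgebra ℤ G] MonoidAlgebra ℤ G,
      ν.comp X.d3 = rmul l0 (of ℤ G (x j : G)) - w (x j : G) • l0 := by
    intro j
    have h0 : X.θ (rmul l0 (of ℤ G (x j : G)) - w (x j : G) • l0) = 0 := by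
      rw [map_sub, hwθ, map_zsmul, hl0]
      simp
    obtain ⟨ψ, hψ⟩ := (X.θker _).1 h0
    exact ⟨ψ, hψ.symm⟩
  choose μ' hμ' using hμ'
  have hq : ∀ p : {p : Fin n → MonoidAlgebra ℤ H // bd x p = 0}, ∃ q : X.P2,
      X.d2 q = ∑ j, inc H (p.1 j) • y j ∧ ρ q = 0 := by
    rintro ⟨p, hp⟩
    obtain ⟨q0, hq0⟩ := (X.ex1 _).1 (hcomp p hp).1
    refine ⟨q0 - X.d3 (ρ q0), ?_, ?_⟩
    · have h0 : X.d2 (X.d3 (ρ q0)) = 0 := (X.ex2 _).2 ⟨_, rfl⟩
      rw [map_sub, hq0, h0, sub_zero]
    · rw [map_sub, hρ2, sub_self]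
  choose q hq2 hqρ using hq
  let v : {p : Fin n → MonoidAlgebra ℤ H // bd x p = 0} →
      ((X.P2 →ₗ[MonoidAlgebra ℤ G] MonoidAlgebra ℤ G) × G) ⊕ Fin n → D :=
    fun p => Sum.elim (fun t => f (resH H (t.1 (q p) * of ℤ G t.2⁻¹)))
      (fun j => f (p.1 j))
  let J0 : Finset (((X.P2 →ₗ[MonoidAlgebra ℤ G] MonoidAlgebra ℤ G) × G) ⊕ Fin n) :=
    (Finset.univ.image (fun j : Fin n => Sum.inl (μ' j, (1 : G)))) ∪
      (Finset.univ.image (fun j : Fin n => Sum.inr j))
  have hJl : ∀ j, Sum.inl (μ' j, (1 : G)) ∈ J0 := fun j =>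
    Finset.mem_union_left _ (Finset.mem_image_of_mem _ (Finset.mem_univ j))
  have hJr : ∀ j : Fin n, Sum.inr j ∈ J0 := fun j =>
    Finset.mem_union_right _ (Finset.mem_image_of_mem _ (Finset.mem_univ j))
  obtain ⟨I0, hI0⟩ := lin_alg J0 v (by
    intro c hc j
    rcases j with ⟨ν, g⟩ | j
    · rw [sum_coe c (fun i => v i (Sum.inl (ν, g)))]
      refine heart X H hind hbot f hf ρ hρ1 hρ2 (fun a : {i // i ∈ c.support} => c a.1)
        (fun a => q a.1) x hx y (fun a => a.1.1) w hw hwm hwθ l0 hl0 (fun a => hq2 a.1)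
        (fun a => hqρ a.1) ?_ ?_ ν g
      · intro j
        have := hc _ (hJr j)
        rw [sum_coe c (fun i => v i (Sum.inr j))] at this
        exact this
      · intro j
        refine ⟨μ' j, hμ' j, ?_⟩
        have := hc _ (hJl j)
        rw [sum_coe c (fun i => v i (Sum.inl (μ' j, 1)))] at this
        exact this
    · exact hc _ (hJr j))
  refine fin_gen X H x y g1 σ hg1 hg1' hσ (fun p hp => (hcomp p hp).2) e μ hμ
    (I0.biUnion (fun p0 => Finset.univ.biUnion
      (fun k => ((μ k (q p0)).coeff.support).image (tr H)))) ?_ ?_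
  · intro t ht
    simp only [Finset.mem_biUnion, Finset.mem_image] at ht
    obtain ⟨_, _, _, _, g, _, rfl⟩ := ht
    exact tr_tr H g
  · intro p hp
    refine ⟨q ⟨p, hp⟩, hq2 ⟨p, hp⟩, ?_⟩
    intro k g hkg
    have h1 : v ⟨p, hp⟩ (Sum.inl (μ k, g)) ≠ 0 := by
      intro h0
      have h2 : f (resH H (μ k (q ⟨p, hp⟩) * of ℤ G g⁻¹)) = 0 := h0
      have h4 : resH H (μ k (q ⟨p, hp⟩) * of ℤ G g⁻¹) = 0 :=
        hf (by rw [h2, map_zero])
      apply hkg
      have h5 : (resH H (μ k (q ⟨p, hp⟩) * of ℤ G g⁻¹)).coeff 1 = 0 := by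
        rw [h4]; simp
      rw [coeff_resH, of_apply, coeff_mul_single_apply] at h5
      simpa using h5
    obtain ⟨p0, hp0, h2⟩ := hI0 _ _ h1
    have h3 : resH H (μ k (q p0) * of ℤ G g⁻¹) ≠ 0 := by
      intro h0
      apply h2
      change f (resH H (μ k (q p0) * of ℤ G g⁻¹)) = 0
      rw [h0, map_zero]
    obtain ⟨h, hh⟩ : ∃ h : H, (resH H (μ k (q p0) * of ℤ G g⁻¹)).coeff h ≠ 0 := by
      by_contra hcon
      push Not at hcon
      apply h3
      ext h
      simpa using hcon h
    rw [coeff_resH, of_apply, coeff_mul_single_apply] at hh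
    simp only [inv_inv, mul_one] at hh
    simp only [Finset.mem_biUnion, Finset.mem_image, Finsupp.mem_support_iff]
    exact ⟨p0, hp0, k, Finset.mem_univ _, (h : G) * g, hh, tr_mul H h.2 g⟩

/-- Theorem A for a subgroup `K` of a subgroup `H` whose group ring embeds in a division ring. -/
theorem thmA_le {G : Type} [Group G] (X : PD3 G) {D : Type} [DivisionRing D] (H : Subgroup G)
    (f : MonoidAlgebra ℤ H →+* D) (hf : Function.Injective f) (K : Subgroup G) (hK : K ≤ H) :
    RelFG K := by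
  have hinj : Function.Injective
      (MonoidAlgebra.mapDomainRingHom ℤ (Subgroup.inclusion hK) :
        MonoidAlgebra ℤ K →+* MonoidAlgebra ℤ H) := by
    have : Function.Injective (MonoidAlgebra.mapDomain (R := ℤ) (Subgroup.inclusion hK : K → H)) :=
      mapDomain_injective (Subgroup.inclusion_injective hK)
    exact this
  exact thmA X K (f.comp (MonoidAlgebra.mapDomainRingHom ℤ (Subgroup.inclusion hK)))
    (hf.comp hinj)

end Pool.Agent.PDC.SH
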