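import Mathlib
import Pool.Agent.PDC.DualB
import Pool.Agent.PDC.AugI
import Pool.Agent.PDC.SH.ThmA

set_option autoImplicit false

/-!
# PDC-SH: finite generation of the relation modules passes from a subgroup of finite index
# to the group (helper68)
-/

namespace Pool.Agent.PDC.SH

open MonoidAlgebra

/-- the `ZH`-linear map on `ZG` with prescribed values on the coset representatives -/
private noncomputable def kap {G : Type} [Group G] (H : Subgroup G) {M : Type} [AddCommGroup M]
    [Module (MonoidAlgebra ℤ H) M] (c : G → M) : MonoidAlgebra ℤ G →+ M :=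
  extZ (fun g => of ℤ H ⟨g * (tr H g)⁻¹, tr_mem H g⟩ • c (tr H g))

private theorem kap_of {G : Type} [Group G] (H : Subgroup G) {M : Type} [AddCommGroup M]
    [Module (MonoidAlgebra ℤ H) M] (c : G → M) (g : G) :
    kap H c (of ℤ G g) = of ℤ H ⟨g * (tr H g)⁻¹, tr_mem H g⟩ • c (tr H g) := by
  unfold kap
  rw [extZ_of]

private theorem kap_inc {G : Type} [Group G] (H : Subgroup G) {M : Type} [AddCommGroup M]
    [Module (MonoidAlgebra ℤ H) M] (c : G → M) (a : MonoidAlgebra ℤ H) (r : MonoidAlgebra ℤ G) :
    kap H c (inc H a * r) = a • kap H c r := by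
  induction a using zg_induction with
  | h0 => simp
  | hadd x y hx hy => rw [map_add, add_mul, map_add, hx, hy, add_smul]
  | hneg x hx => rw [map_neg, neg_mul, map_neg, hx, neg_smul]
  | hof h =>
    induction r using zg_induction with
    | h0 => simp
    | hadd x y hx hy => rw [mul_add, map_add, hx, hy, map_add, smul_add]
    | hneg x hx => rw [mul_neg, map_neg, hx, map_neg, smul_neg]
    | hof g =>
      have e : (⟨(h : G) * g * (tr H ((h : G) * g))⁻¹, tr_mem H ((h : G) * g)⟩ : H)
          = h * ⟨g * (tr H g)⁻¹, tr_mem H g⟩ := by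
        apply Subtype.ext
        rw [Subgroup.coe_mul]
        simp only [tr_mul H h.2 g, mul_assoc]
      rw [inc_of, ← map_mul, kap_of, kap_of, e, tr_mul H h.2 g, map_mul, mul_smul]

/-- the same with values in a `ZG`-module -/
private noncomputable def kag {G : Type} [Group G] (H : Subgroup G) {M : Type} [AddCommGroup M]
    [Module (MonoidAlgebra ℤ G) M] (c : G → M) : MonoidAlgebra ℤ G →+ M :=
  extZ (fun g => of ℤ G (g * (tr H g)⁻¹) • c (tr H g))

private theorem kag_of {G : Type} [Group G] (H : Subgroup G) {M : Type} [AddCommGroup M]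
    [Module (MonoidAlgebra ℤ G) M] (c : G → M) (g : G) :
    kag H c (of ℤ G g) = of ℤ G (g * (tr H g)⁻¹) • c (tr H g) := by
  unfold kag
  rw [extZ_of]

private theorem kag_inc {G : Type} [Group G] (H : Subgroup G) {M : Type} [AddCommGroup M]
    [Module (MonoidAlgebra ℤ G) M] (c : G → M) (a : MonoidAlgebra ℤ H) (r : MonoidAlgebra ℤ G) :
    kag H c (inc H a * r) = inc H a • kag H c r := by
  induction a using zg_induction with
  | h0 => simp
  | hadd x y hx hy => rw [map_add, add_mul, map_add, hx, hy, add_smul]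
  | hneg x hx => rw [map_neg, neg_mul, map_neg, hx, neg_smul]
  | hof h =>
    induction r using zg_induction with
    | h0 => simp
    | hadd x y hx hy => rw [mul_add, map_add, hx, hy, map_add, smul_add]
    | hneg x hx => rw [mul_neg, map_neg, hx, map_neg, smul_neg]
    | hof g =>
      rw [inc_of, ← map_mul, kag_of, kag_of, tr_mul H h.2 g, smul_smul, ← map_mul, mul_assoc]

private theorem bd_single {K : Type} [Group K] {n : ℕ} (x : Fin n → K) (j : Fin n)
    (r : MonoidAlgebra ℤ K) : bd x (Pi.single j r) = r * (of ℤ K (x j) - 1) := by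
  rw [bd_apply, Finset.sum_eq_single j]
  · rw [Pi.single_eq_same]
  · intro k _ hk
    rw [Pi.single_eq_of_ne hk, zero_mul]
  · intro h
    exact absurd (Finset.mem_univ j) h

private theorem finite_tr {G : Type} [Group G] (H : Subgroup G) (h : H.index ≠ 0) :
    (Set.range (tr H)).Finite := by
  have h1 : Finite (Quotient (QuotientGroup.rightRel H)) := by
    have : H.FiniteIndex := ⟨h⟩
    exact Finite.of_equiv _ (QuotientGroup.quotientRightRelEquivQuotientLeftRel H).symm
  have h2 : Set.range (tr H) ⊆ Set.range (fun q : Quotient (QuotientGroup.rightRel H) => q.out) := by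
    rintro _ ⟨g, rfl⟩
    exact ⟨Quotient.mk (QuotientGroup.rightRel H) g, rfl⟩
  exact (Set.finite_range _).subset h2

/-- **RelFG passes from a subgroup of finite index to the group.** -/
theorem relFG_of_finiteIndex {H : Type} [Group H] (H0 : Subgroup H) (hfin : H0.index ≠ 0)
    (h : RelFG H0) : RelFG H := by
  classical
  intro n x hx
  have hH : Group.FG H := by
    rw [Group.fg_iff]
    exact ⟨Set.range x, hx, Set.finite_range x⟩
  have hH0 : Group.FG H0 := by
    have : H0.FiniteIndex := ⟨hfin⟩
    infer_instance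
  obtain ⟨k, y, hy⟩ : ∃ (k : ℕ) (y : Fin k → H0), Subgroup.closure (Set.range y) = ⊤ := by
    rw [Group.fg_iff] at hH0
    obtain ⟨S, hS, hf⟩ := hH0
    obtain ⟨k, y, _, hy⟩ := hf.fin_param
    exact ⟨k, y, by rw [hy, hS]⟩
  obtain ⟨S, hS⟩ := h k y hy
  -- `κ : ZH → ZH0`
  obtain ⟨κ, κdef⟩ : ∃ κ : MonoidAlgebra ℤ H →+ MonoidAlgebra ℤ H0,
      κ = kap H0 (M := MonoidAlgebra ℤ H0) (fun _ => 1) := ⟨_, rfl⟩
  have κlin : ∀ (a : MonoidAlgebra ℤ H0) (r : MonoidAlgebra ℤ H), κ (inc H0 a * r) = a * κ r := by
    intro a r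
    rw [κdef, kap_inc, smul_eq_mul]
  have κaug : ∀ r : MonoidAlgebra ℤ H, aug (κ r) = aug r := by
    intro r
    induction r using zg_induction with
    | h0 => simp
    | hadd x y hx hy => rw [map_add, map_add, hx, hy, map_add]
    | hneg x hx => rw [map_neg, map_neg, hx, map_neg]
    | hof g => rw [κdef, kap_of, smul_eq_mul, mul_one, aug_of, aug_of]
  have augof1 : ∀ g : H, aug (of ℤ H g - 1) = 0 := by
    intro g
    rw [map_sub, aug_of, map_one, sub_self]
  -- `f1`
  have hu0 : ∀ j : Fin k, ∃ u : Fin n → MonoidAlgebra ℤ H, bd x u = of ℤ H (y j : H) - 1 :=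
    fun j => aug_exact x hx _ (augof1 _)
  choose u hu using hu0
  obtain ⟨f1, f1def⟩ : ∃ f1 : (Fin k → MonoidAlgebra ℤ H0) →+ (Fin n → MonoidAlgebra ℤ H),
      ∀ p, f1 p = ∑ j, inc H0 (p j) • u j := by
    refine ⟨{ toFun := fun p => ∑ j, inc H0 (p j) • u j
              map_zero' := by simp
              map_add' := ?_ }, fun p => rfl⟩
    intro p q
    rw [← Finset.sum_add_distrib]
    refine Finset.sum_congr rfl ?_
    intro j _
    rw [Pi.add_apply, map_add, add_smul]
  have f1lin : ∀ (a : MonoidAlgebra ℤ H0) (p : Fin k → MonoidAlgebra ℤ H0),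
      f1 (a • p) = inc H0 a • f1 p := by
    intro a p
    rw [f1def, f1def, Finset.smul_sum]
    refine Finset.sum_congr rfl ?_
    intro j _
    rw [Pi.smul_apply, smul_eq_mul, map_mul, mul_smul]
  have f1bd : ∀ p, bd x (f1 p) = inc H0 (bd y p) := by
    intro p
    rw [f1def, map_sum, bd_apply, map_sum]
    refine Finset.sum_congr rfl ?_
    intro j _
    rw [map_smul, hu, smul_eq_mul, map_mul, map_sub, inc_of, map_one]
  -- `g1`
  have hc0 : ∀ (i : Fin n) (t : H), ∃ c : Fin k → MonoidAlgebra ℤ H0,
      bd y c = κ (of ℤ H t * (of ℤ H (x i) - 1)) := by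
    intro i t
    refine aug_exact y hy _ ?_
    rw [κaug, map_mul, augof1, mul_zero]
  choose c hc using hc0
  obtain ⟨C, Cdef⟩ : ∃ C : Fin n → (MonoidAlgebra ℤ H →+ (Fin k → MonoidAlgebra ℤ H0)),
      ∀ i, C i = kap H0 (c i) := ⟨fun i => kap H0 (c i), fun i => rfl⟩
  have Clin : ∀ i (a : MonoidAlgebra ℤ H0) (r : MonoidAlgebra ℤ H),
      C i (inc H0 a * r) = a • C i r := by
    intro i a r
    rw [Cdef, kap_inc]
  have Cbd : ∀ i (r : MonoidAlgebra ℤ H), bd y (C i r) = κ (r * (of ℤ H (x i) - 1)) := by
    intro i r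
    induction r using zg_induction with
    | h0 => simp
    | hadd u v hu hv => rw [map_add, map_add, hu, hv, add_mul, map_add]
    | hneg u hu => rw [map_neg, map_neg, hu, neg_mul, map_neg]
    | hof g =>
      rw [Cdef, kap_of, map_smul, hc, smul_eq_mul, ← κlin, inc_of, ← mul_assoc, ← map_mul,
        inv_mul_cancel_right]
  obtain ⟨g1, g1def⟩ : ∃ g1 : (Fin n → MonoidAlgebra ℤ H) →+ (Fin k → MonoidAlgebra ℤ H0),
      ∀ q, g1 q = ∑ i, C i (q i) := by
    refine ⟨{ toFun := fun q => ∑ i, C i (q i)
              map_zero' := by simp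
              map_add' := ?_ }, fun p => rfl⟩
    intro p q
    rw [← Finset.sum_add_distrib]
    refine Finset.sum_congr rfl ?_
    intro j _
    rw [Pi.add_apply, map_add]
  have g1lin : ∀ (a : MonoidAlgebra ℤ H0) (q : Fin n → MonoidAlgebra ℤ H),
      g1 (inc H0 a • q) = a • g1 q := by
    intro a q
    rw [g1def, g1def, Finset.smul_sum]
    refine Finset.sum_congr rfl ?_
    intro i _
    rw [Pi.smul_apply, smul_eq_mul, Clin]
  have g1bd : ∀ q, bd y (g1 q) = κ (bd x q) := by
    intro q
    rw [g1def, map_sum, bd_apply, map_sum]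
    refine Finset.sum_congr rfl ?_
    intro i _
    rw [Cbd]
  -- the homotopy
  have hv0 : ∀ t : H, ∃ v : Fin n → MonoidAlgebra ℤ H,
      bd x v = inc H0 (κ (of ℤ H t)) - of ℤ H t := by
    intro t
    refine aug_exact x hx _ ?_
    have h1 : ∀ a : MonoidAlgebra ℤ H0, aug (inc H0 a) = aug a := by
      intro a
      induction a using zg_induction with
      | h0 => simp
      | hadd u v hu hv => rw [map_add, map_add, hu, hv, map_add]
      | hneg u hu => rw [map_neg, map_neg, hu, map_neg]
      | hof g => rw [inc_of, aug_of, aug_of]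
    rw [map_sub, h1, κaug, sub_self]
  choose v hv using hv0
  obtain ⟨h0, h0def⟩ : ∃ h0 : MonoidAlgebra ℤ H →+ (Fin n → MonoidAlgebra ℤ H),
      h0 = kag H0 v := ⟨_, rfl⟩
  have h0lin : ∀ (a : MonoidAlgebra ℤ H0) (r : MonoidAlgebra ℤ H),
      h0 (inc H0 a * r) = inc H0 a • h0 r := by
    intro a r
    rw [h0def, kag_inc]
  have h0bd : ∀ r : MonoidAlgebra ℤ H, bd x (h0 r) = inc H0 (κ r) - r := by
    intro r
    induction r using zg_induction with
    | h0 => simp
    | hadd u v hu hv =>
      rw [map_add, map_add, hu, hv, map_add, map_add]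
      abel
    | hneg u hu =>
      rw [map_neg, map_neg, hu, map_neg, map_neg]
      abel
    | hof g =>
      have h1 : of ℤ H g = inc H0 (of ℤ H0 ⟨g * (tr H0 g)⁻¹, tr_mem H0 g⟩) * of ℤ H (tr H0 g) := by
        rw [inc_of, ← map_mul, inv_mul_cancel_right]
      have h2 : h0 (of ℤ H g) =
          inc H0 (of ℤ H0 ⟨g * (tr H0 g)⁻¹, tr_mem H0 g⟩) • v (tr H0 g) := by
        rw [h0def, kag_of, inc_of]
      rw [h2, map_smul, hv, smul_eq_mul, mul_sub, ← h1]
      conv_rhs => rw [h1, κlin, map_mul]
      rw [← h1]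
  -- `Φ`
  obtain ⟨Φ, Φdef⟩ : ∃ Φ : (Fin n → MonoidAlgebra ℤ H) →+ (Fin n → MonoidAlgebra ℤ H),
      ∀ q, Φ q = f1 (g1 q) - q - h0 (bd x q) := by
    refine ⟨f1.comp g1 - AddMonoidHom.id _ - h0.comp (bd x).toAddMonoidHom, fun q => rfl⟩
  have Φlin : ∀ (a : MonoidAlgebra ℤ H0) (q : Fin n → MonoidAlgebra ℤ H),
      Φ (inc H0 a • q) = inc H0 a • Φ q := by
    intro a q
    rw [Φdef, Φdef, g1lin, f1lin, map_smul, smul_eq_mul, h0lin, smul_sub, smul_sub]
  have Φbd : ∀ q, bd x (Φ q) = 0 := by
    intro q
    rw [Φdef, map_sub, map_sub, f1bd, g1bd, h0bd]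
    abel
  -- the finite generating set
  have hT := finite_tr H0 hfin
  let A : Set (Fin n → MonoidAlgebra ℤ H) := f1 '' (S : Set (Fin k → MonoidAlgebra ℤ H0))
  let B : Set (Fin n → MonoidAlgebra ℤ H) :=
    (fun p : H × Fin n => Φ (Pi.single p.2 (of ℤ H p.1))) '' (Set.range (tr H0) ×ˢ Set.univ)
  have hAfin : A.Finite := (Finset.finite_toSet S).image _
  have hBfin : B.Finite := (hT.prod Set.finite_univ).image _
  have hle : Submodule.span (MonoidAlgebra ℤ H) (A ∪ B) = LinearMap.ker (bd x) := by
    apply le_antisymm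
    · rw [Submodule.span_le]
      rintro w (⟨p, hp, rfl⟩ | ⟨p, hp, rfl⟩)
      · show f1 p ∈ LinearMap.ker (bd x)
        rw [LinearMap.mem_ker, f1bd]
        have h1 : p ∈ LinearMap.ker (bd y) := by
          rw [← hS]
          exact Submodule.subset_span hp
        rw [LinearMap.mem_ker] at h1
        rw [h1, map_zero]
      · show Φ _ ∈ LinearMap.ker (bd x)
        rw [LinearMap.mem_ker, Φbd]
    · intro p hp
      rw [LinearMap.mem_ker] at hp
      have h1 : p = f1 (g1 p) - Φ p := by
        rw [Φdef, hp, map_zero]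
        abel
      have h2 : g1 p ∈ Submodule.span (MonoidAlgebra ℤ H0) (S : Set (Fin k → MonoidAlgebra ℤ H0)) := by
        rw [hS, LinearMap.mem_ker, g1bd, hp, map_zero]
      have h3 : f1 (g1 p) ∈ Submodule.span (MonoidAlgebra ℤ H) (A ∪ B) := by
        generalize g1 p = w0 at h2
        induction h2 using Submodule.span_induction with
        | mem w hw => exact Submodule.subset_span (Or.inl ⟨w, hw, rfl⟩)
        | zero => rw [map_zero]; exact zero_mem _
        | add a b _ _ ha hb => rw [map_add]; exact add_mem ha hb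
        | smul a b _ hb => rw [f1lin]; exact Submodule.smul_mem _ _ hb
      have h4 : ∀ q : Fin n → MonoidAlgebra ℤ H,
          Φ q ∈ Submodule.span (MonoidAlgebra ℤ H) (A ∪ B) := by
        intro q
        have h5 : q = ∑ i, Pi.single i (q i) := by
          funext j
          rw [Finset.sum_apply, Finset.sum_eq_single j]
          · rw [Pi.single_eq_same]
          · intro i _ hi
            rw [Pi.single_eq_of_ne hi.symm]
          · intro h
            exact absurd (Finset.mem_univ j) h
        rw [h5, map_sum]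
        apply Submodule.sum_mem
        intro i _
        generalize q i = r
        induction r using zg_induction with
        | h0 => rw [Pi.single_zero, map_zero]; exact zero_mem _
        | hadd u v hu hv => rw [Pi.single_add, map_add]; exact add_mem hu hv
        | hneg u hu => rw [Pi.single_neg, map_neg]; exact neg_mem hu
        | hof g =>
          have h6 : (Pi.single i (of ℤ H g) : Fin n → MonoidAlgebra ℤ H) =
              inc H0 (of ℤ H0 ⟨g * (tr H0 g)⁻¹, tr_mem H0 g⟩) • Pi.single i (of ℤ H (tr H0 g)) := by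
            rw [← Pi.single_smul, smul_eq_mul, inc_of, ← map_mul, inv_mul_cancel_right]
          rw [h6, Φlin]
          apply Submodule.smul_mem
          apply Submodule.subset_span
          exact Or.inr ⟨(tr H0 g, i), ⟨⟨g, rfl⟩, Set.mem_univ _⟩, rfl⟩
      rw [h1]
      exact sub_mem h3 (h4 p)
  rw [← hle]
  exact Submodule.fg_span (hAfin.union hBfin)

/-- RelFG is invariant under isomorphism. -/
theorem relFG_equiv {K K' : Type} [Group K] [Group K'] (e : K ≃* K') (h : RelFG K) : RelFG K' := by
  classical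
  intro n x' hx'
  obtain ⟨S, hS⟩ := h n (fun i => e.symm (x' i)) (by
    have h1 := congrArg (Subgroup.map e.symm.toMonoidHom) hx'
    rw [MonoidHom.map_closure, ← Set.range_comp] at h1
    rw [← MonoidHom.range_eq_map, MonoidHom.range_eq_top.2 e.symm.surjective] at h1
    exact h1)
  let φ : MonoidAlgebra ℤ K →+* MonoidAlgebra ℤ K' := MonoidAlgebra.mapDomainRingHom ℤ e.toMonoidHom
  let ψ : MonoidAlgebra ℤ K' →+* MonoidAlgebra ℤ K :=
    MonoidAlgebra.mapDomainRingHom ℤ e.symm.toMonoidHom
  have hφof : ∀ g, φ (of ℤ K g) = of ℤ K' (e g) := by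
    intro g
    simp [φ, of_apply]
  have hψof : ∀ g, ψ (of ℤ K' g) = of ℤ K (e.symm g) := by
    intro g
    simp [ψ, of_apply]
  have hφψ : ∀ a, φ (ψ a) = a := by
    intro a
    induction a using zg_induction with
    | h0 => simp
    | hadd u v hu hv => rw [map_add, map_add, hu, hv]
    | hneg u hu => rw [map_neg, map_neg, hu]
    | hof g => rw [hψof, hφof, MulEquiv.apply_symm_apply]
  let E : (Fin n → MonoidAlgebra ℤ K) → (Fin n → MonoidAlgebra ℤ K') := fun p j => φ (p j)
  have hE : ∀ p, bd x' (E p) = φ (bd (fun i => e.symm (x' i)) p) := by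
    intro p
    rw [bd_apply, bd_apply, map_sum]
    refine Finset.sum_congr rfl ?_
    intro j _
    rw [map_mul, map_sub, hφof, map_one, MulEquiv.apply_symm_apply]
  have hle : Submodule.span (MonoidAlgebra ℤ K') (E '' (S : Set (Fin n → MonoidAlgebra ℤ K))) =
      LinearMap.ker (bd x') := by
    apply le_antisymm
    · rw [Submodule.span_le]
      rintro _ ⟨p, hp, rfl⟩
      show E p ∈ LinearMap.ker (bd x')
      rw [LinearMap.mem_ker, hE]
      have h1 : p ∈ LinearMap.ker (bd (fun i => e.symm (x' i))) := by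
        rw [← hS]
        exact Submodule.subset_span hp
      rw [LinearMap.mem_ker] at h1
      rw [h1, map_zero]
    · intro p hp
      rw [LinearMap.mem_ker] at hp
      let q : Fin n → MonoidAlgebra ℤ K := fun j => ψ (p j)
      have hq : E q = p := by
        funext j
        exact hφψ (p j)
      have h2 : bd (fun i => e.symm (x' i)) q = 0 := by
        have h3 : ψ (bd x' p) = bd (fun i => e.symm (x' i)) q := by
          rw [bd_apply, bd_apply, map_sum]
          refine Finset.sum_congr rfl ?_
          intro j _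
          rw [map_mul, map_sub, hψof, map_one]
        rw [← h3, hp, map_zero]
      have h4 : q ∈ Submodule.span (MonoidAlgebra ℤ K) (S : Set (Fin n → MonoidAlgebra ℤ K)) := by
        rw [hS, LinearMap.mem_ker, h2]
      rw [← hq]
      generalize q = w at h4
      induction h4 using Submodule.span_induction with
      | mem w hw => exact Submodule.subset_span ⟨w, hw, rfl⟩
      | zero =>
        have : E 0 = 0 := by funext j; exact map_zero φ
        rw [this]; exact zero_mem _
      | add a b _ _ ha hb =>
        have : E (a + b) = E a + E b := by funext j; exact map_add φ _ _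
        rw [this]; exact add_mem ha hb
      | smul a b _ hb =>
        have : E (a • b) = φ a • E b := by funext j; exact map_mul φ _ _
        rw [this]; exact Submodule.smul_mem _ _ hb
  rw [← hle]
  exact Submodule.fg_span ((Finset.finite_toSet S).image _)

/-- **Theorem A, virtual form.** Let `H` be a subgroup of a `PD₃`-group with a subgroup `H0` of
finite index such that `ℤ[H0]` embeds in a division ring. Then the relation modules of `H` are
finitely generated. -/
theorem thmA_virt {G : Type} [Group G] (X : PD3 G) {D : Type} [DivisionRing D] (H : Subgroup G)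
    (H0 : Subgroup H) (hfin : H0.index ≠ 0)
    (f : MonoidAlgebra ℤ H0 →+* D) (hf : Function.Injective f) : RelFG H := by
  apply relFG_of_finiteIndex H0 hfin
  have e : H0 ≃* (H0.map H.subtype) := H0.equivMapOfInjective H.subtype H.subtype_injective
  apply relFG_equiv e.symm
  have hinj : Function.Injective
      (MonoidAlgebra.mapDomainRingHom ℤ e.symm.toMonoidHom :
        MonoidAlgebra ℤ (H0.map H.subtype) →+* MonoidAlgebra ℤ H0) := by
    have : Function.Injective (MonoidAlgebra.mapDomain (R := ℤ)
        (e.symm : (H0.map H.subtype) → H0)) :=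
      mapDomain_injective e.symm.injective
    exact this
  exact thmA X (H0.map H.subtype) (f.comp (MonoidAlgebra.mapDomainRingHom ℤ e.symm.toMonoidHom))
    (hf.comp hinj)

end Pool.Agent.PDC.SH
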